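import Pool.Agent.Lib.MP_5349a4_pr.M.Iface1
import Pool.Agent.Lib.MP_5349a4_pr.M.Base

/-!
# Module EXPL: strong Markov property for the exploration of the cluster
-/

set_option autoImplicit false
set_option linter.all false
open MeasureTheory Set
open scoped ENNReal NNReal

namespace Pool.Agent.Lib.MP_5349a4_pr.H30

open Pool.Agent.Lib.MP_5349a4_pr

theorem expl (hsmp : SmpStatement) (hclb : ClbStatement) (hcon : ConMStatement) :
    ExplStatement := by
  intro E _ _ ρ _ _ adj x f hadj hf
  have hC := (hcon E adj hadj).1
  set W : Set E → Set E := fun P => {e | Con adj P x e} with hWdef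
  have hW : Stop W := by
    refine ⟨?_, ?_⟩
    · have h : Measurable fun q : E × Cfg E => (x, q.1, q.2) :=
        measurable_const.prodMk (measurable_fst.prodMk measurable_snd)
      exact h hC
    · intro P Q _ _ h
      have h1 := ((hclb E adj P Q x x).2.2.2.2.1 h).1
      ext e
      simp only [hWdef, Set.mem_setOf_eq]
      unfold Con
      rw [h1]
  have key := hsmp E ρ W f hW hf
  exact key

end Pool.Agent.Lib.MP_5349a4_pr.H30
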