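import Pool.Agent.Lib.MP_5349a4_pr.M.Iface1
import Pool.Agent.Lib.MP_5349a4_pr.M.Base

/-!
# Module HPB: basic properties of the hitting probabilities and of the two-point function
-/

set_option autoImplicit false
set_option linter.all false
open MeasureTheory Set
open scoped ENNReal NNReal

namespace Pool.Agent.Lib.MP_5349a4_pr.H30

open Pool.Agent.Lib.MP_5349a4_pr

theorem hpb (hsup : SuperStatement) (hlip : LipStatement) (hmk : MeckeStatement)
    (hclb : ClbStatement) (hcon : ConMStatement) (hprob : ProbStatement) : HpbStatement := by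
  intro E _ _ ρ σ _ _ _ _ adj s x y hadj hs
  haveI : IsProbabilityMeasure (PL ρ) := (hprob E ρ).1
  haveI : IsProbabilityMeasure (PL σ) := (hprob E σ).1
  haveI : IsProbabilityMeasure (PL (ρ + σ)) := (hprob E (ρ + σ)).1
  have hC := (hcon E adj hadj).1
  have mC : ∀ y : E, MeasurableSet {q : E × Cfg E | Con adj (pt q.2) y q.1} := by
    intro y
    have h : Measurable fun q : E × Cfg E => (y, q.1, q.2) :=
      measurable_const.prodMk (measurable_fst.prodMk measurable_snd)
    exact h hC
  have mH' : ∀ s : E → Prop, MeasurableSet {a | s a} → ∀ y : E,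
      MeasurableSet {ω : Cfg E | Hs adj s (pt ω) y} := by
    intro s hs y
    have hH := (hcon E adj hadj).2.1 (fun _ a => s a) (measurable_snd hs)
    have h : Measurable fun ω : Cfg E => (y, y, ω) :=
      measurable_const.prodMk (measurable_const.prodMk measurable_id)
    exact h hH
  have hy : MeasurableSet {a | adj a y} := by
    have h : Measurable fun a : E => (a, y) := measurable_id.prodMk measurable_const
    exact h hadj
  have hpint : ∀ (s : E → Prop), MeasurableSet {a | s a} → ∀ (ρ : Measure E) (y : E),
      hp adj ρ s y = ∫⁻ ω, ind (Hs adj s (pt ω) y) ∂PL ρ := by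
    intro s hs ρ y
    rw [lintegral_ind (mH' s hs y)]
    rfl
  have hself : ∀ (P : Set E), x ∈ cl adj P x := fun P => Relation.ReflTransGen.refl
  have mono : ∀ s : E → Prop, MeasurableSet {a | s a} → hp adj ρ s x ≤ hp adj (ρ + σ) s x := by
    intro s hs
    rw [hpint s hs, hpint s hs,
      hsup E ρ σ (fun P => ind (Hs adj s P x)) (measurable_ind (mH' s hs x))]
    refine lintegral_mono (fun ω => ?_)
    calc ind (Hs adj s (pt ω) x) = ∫⁻ _, ind (Hs adj s (pt ω) x) ∂PL σ := by
          rw [lintegral_const, measure_univ, mul_one]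
      _ ≤ _ := by
          refine lintegral_mono (fun ω' => ind_mono ?_)
          rintro ⟨a, ha, hsa⟩
          exact ⟨a, (hclb E adj (pt ω) (pt ω ∪ pt ω') x x).1 Set.subset_union_left ha, hsa⟩
  refine ⟨prob_le_one, prob_le_one, ?_, ?_, mono s hs, mono _ hy, ?_, ?_, ?_⟩
  · intro hsx
    have : {ω : Cfg E | Hs adj s (pt ω) x} = Set.univ :=
      Set.eq_univ_of_forall (fun ω => ⟨x, hself _, hsx⟩)
    unfold hp
    rw [this, measure_univ]
  · intro hxy
    have : {ω : Cfg E | Con adj (pt ω) x y} = Set.univ :=
      Set.eq_univ_of_forall (fun ω => ⟨x, hself _, hxy⟩)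
    unfold tp
    rw [this, measure_univ]
  · rw [hpint s hs, hpint s hs]
    exact (hlip E ρ σ (fun P => ind (Hs adj s P x)) (measurable_ind (mH' s hs x))
      (fun P => ind_le_one _)).1
  · -- union bound
    rw [hpint s hs]
    set g : E → Set E → ℝ≥0∞ := fun p P => ind (Con adj P x p) * ind (s p) with hg
    have mg : Measurable (fun q : E × Cfg E => g q.1 (pt q.2)) :=
      (measurable_ind (mC x)).mul ((measurable_ind hs).comp measurable_fst)
    have hM := (hmk E ρ g mg).1
    have hpt : ∀ ω : Cfg E, ind (Hs adj s (pt ω) x) ≤ ind (s x) + ∑' p : (pt ω : Set E), g p (pt ω) := by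
      intro ω
      by_cases h : Hs adj s (pt ω) x
      · obtain ⟨a, ha, hsa⟩ := h
        by_cases hax : a = x
        · rw [ind_of (show s x from hax ▸ hsa)]
          exact (ind_le_one _).trans le_self_add
        · have h1 : a ∈ clus adj (pt ω) x :=
            (hclb E adj (pt ω) (pt ω) x x).2.1.1 ⟨ha, hax⟩
          refine le_trans ?_ le_add_self
          refine le_trans ?_ (ENNReal.le_tsum (⟨a, h1.1⟩ : (pt ω : Set E)))
          show ind _ ≤ ind (Con adj (pt ω) x a) * ind (s a)
          rw [ind_of h1.2, ind_of hsa, one_mul]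
          exact ind_le_one _
      · rw [ind_not h]
        exact zero_le
    calc ∫⁻ ω, ind (Hs adj s (pt ω) x) ∂PL ρ
        ≤ ∫⁻ ω, (ind (s x) + ∑' p : (pt ω : Set E), g p (pt ω)) ∂PL ρ := lintegral_mono hpt
      _ = ind (s x) + ∫⁻ ω, ∑' p : (pt ω : Set E), g p (pt ω) ∂PL ρ := by
          rw [lintegral_add_left measurable_const, lintegral_const, measure_univ, mul_one]
      _ = _ := by
          rw [hM]
          congr 1
          refine lintegral_congr (fun b => ?_)
          have e : ∀ ω : Cfg E, g b (insert b (pt ω)) = ind (Con adj (pt ω) x b) * ind (s b) := by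
            intro ω
            show ind (Con adj (insert b (pt ω)) x b) * ind (s b) = _
            rw [ind_congr (hclb E adj (pt ω) (pt ω) x b).2.2.1]
          simp only [e]
          have mCb : MeasurableSet {ω : Cfg E | Con adj (pt ω) x b} := by
            have h : Measurable fun ω : Cfg E => (b, ω) := measurable_const.prodMk measurable_id
            exact h (mC x)
          rw [lintegral_mul_const _ (measurable_ind mCb), lintegral_ind mCb]
          rfl
  · intro hsym
    unfold tp
    congr 1
    ext ω
    exact (hclb E adj (pt ω) (pt ω) x y).2.2.2.1 hsym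

end Pool.Agent.Lib.MP_5349a4_pr.H30
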