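import Pool.Agent.Lib.MP_5349a4_pr.M.Iface1
import Pool.Agent.Lib.MP_5349a4_pr.M.Base

/-!
# Module SLG (3.1): Simon-Lieb inequality, general form
-/

set_option autoImplicit false
set_option linter.all false
open MeasureTheory Set
open scoped ENNReal NNReal

namespace Pool.Agent.Lib.MP_5349a4_pr.H30

open Pool.Agent.Lib.MP_5349a4_pr

section det

variable {E : Type} (adj : E → E → Prop)

/-- the points of `P₁` which are not adjacent to the `P₁`-cluster of `x` -/
def rest (P : Set E) (x : E) : Set E := {e | e ∈ P ∧ ¬ Con adj P x e}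

lemma cl_union (P₁ P₂ : Set E) (x p : E) (hp : p ∈ cl adj (P₁ ∪ P₂) x) :
    p ∈ cl adj P₁ x ∨ ∃ z ∈ P₂, Con adj P₁ x z ∧ p ∈ cl adj (rest adj P₁ x ∪ P₂) z := by
  have hp' : Relation.ReflTransGen (step adj (P₁ ∪ P₂)) x p := hp
  induction hp' with
  | refl => exact Or.inl Relation.ReflTransGen.refl
  | @tail b c hb hbc ih =>
    obtain ⟨hadj, hc⟩ := hbc
    rcases ih hb with h | ⟨z, hz, hxz, hbz⟩
    · rcases hc with hc | hc
      · exact Or.inl (Relation.ReflTransGen.tail h ⟨hadj, hc⟩)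
      · exact Or.inr ⟨c, hc, ⟨b, h, hadj⟩, Relation.ReflTransGen.refl⟩
    · by_cases hc2 : c ∈ P₂
      · exact Or.inr ⟨z, hz, hxz, Relation.ReflTransGen.tail hbz ⟨hadj, Or.inr hc2⟩⟩
      · have hc1 : c ∈ P₁ := hc.resolve_right hc2
        by_cases hcon : Con adj P₁ x c
        · obtain ⟨a, ha, hac⟩ := hcon
          exact Or.inl (Relation.ReflTransGen.tail ha ⟨hac, hc1⟩)
        · exact Or.inr ⟨z, hz, hxz,
            Relation.ReflTransGen.tail hbz ⟨hadj, Or.inl ⟨hc1, hcon⟩⟩⟩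

lemma hs_union (s : E → Prop) (P₁ P₂ : Set E) (x : E) (h : Hs adj s (P₁ ∪ P₂) x) :
    Hs adj s P₁ x ∨ ∃ z ∈ P₂, Con adj P₁ x z ∧ Hs adj s (rest adj P₁ x ∪ P₂) z := by
  obtain ⟨p, hp, hs⟩ := h
  rcases cl_union adj P₁ P₂ x p hp with h | ⟨z, hz, hxz, hpz⟩
  · exact Or.inl ⟨p, h, hs⟩
  · exact Or.inr ⟨z, hz, hxz, p, hpz, hs⟩

lemma ind_le_tsum (s : E → Prop) (P₁ P₂ : Set E) (x : E) :
    ind (Hs adj s (P₁ ∪ P₂) x) ≤ ind (Hs adj s P₁ x) +
      ∑' z : P₂, ind (Con adj P₁ x z) * ind (Hs adj s (rest adj P₁ x ∪ P₂) z) := by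
  by_cases h : Hs adj s (P₁ ∪ P₂) x
  · rcases hs_union adj s P₁ P₂ x h with h1 | ⟨z, hz, hxz, hs⟩
    · rw [ind_of h, ind_of h1]
      exact le_self_add
    · rw [ind_of h]
      refine le_trans ?_ le_add_self
      refine le_trans ?_ (ENNReal.le_tsum (⟨z, hz⟩ : P₂))
      rw [ind_of hxz, ind_of hs, one_mul]
  · rw [ind_not h]
    exact zero_le

lemma hs_mono (s : E → Prop) {P Q : Set E} (h : P ⊆ Q) {x : E} (hs : Hs adj s P x) :
    Hs adj s Q x := by
  obtain ⟨a, ha, hsa⟩ := hs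
  refine ⟨a, ?_, hsa⟩
  have hle : step adj P ≤ step adj Q := fun u v huv => ⟨huv.1, h huv.2⟩
  exact Relation.ReflTransGen.mono hle _ _ ha

end det

theorem slg (hexpl : ExplStatement) (hsup : SuperStatement) (hmk : MeckeStatement)
    (hclb : ClbStatement) (hcon : ConMStatement) (hops : MOpsStatement) (hmr : MRestrStatement)
    (hprob : ProbStatement) : SlgStatement := by
  intro E _ _ ρ₁ ρ₂ _ _ _ _ adj s x hadj hs
  haveI : IsProbabilityMeasure (PL ρ₁) := (hprob E ρ₁).1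
  haveI : IsProbabilityMeasure (PL ρ₂) := (hprob E ρ₂).1
  haveI : IsProbabilityMeasure (PL (ρ₁ + ρ₂)) := (hprob E (ρ₁ + ρ₂)).1
  -- measurability of the basic events
  have hC := (hcon E adj hadj).1
  have hH := (hcon E adj hadj).2.1 (fun _ a => s a) (by
    exact measurable_snd hs)
  have mC : ∀ y : E, MeasurableSet {q : E × Cfg E | Con adj (pt q.2) y q.1} := by
    intro y
    have h : Measurable fun q : E × Cfg E => (y, q.1, q.2) :=
      measurable_const.prodMk (measurable_fst.prodMk measurable_snd)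
    exact h hC
  have mH : MeasurableSet {q : E × Cfg E | Hs adj s (pt q.2) q.1} := by
    have h : Measurable fun q : E × Cfg E => (x, q.1, q.2) :=
      measurable_const.prodMk (measurable_fst.prodMk measurable_snd)
    exact h hH
  have mC' : ∀ y z : E, MeasurableSet {ω : Cfg E | Con adj (pt ω) y z} := by
    intro y z
    have h : Measurable fun ω : Cfg E => (z, ω) := measurable_const.prodMk measurable_id
    exact h (mC y)
  have mH' : ∀ y : E, MeasurableSet {ω : Cfg E | Hs adj s (pt ω) y} := by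
    intro y
    have h : Measurable fun ω : Cfg E => (y, ω) := measurable_const.prodMk measurable_id
    exact h mH
  obtain ⟨un, hun, hun'⟩ := hops.1 E
  obtain ⟨rs, hrs, hrs'⟩ := hmr (Cfg E) E {q | ¬ Con adj (pt q.1) x q.2} (by
    have h : Measurable fun q : Cfg E × E => (q.2, q.1) := measurable_swap
    exact (h (mC x)).compl)
  have hrest : ∀ ω : Cfg E, rest adj (pt ω) x = pt (rs (ω, ω)) := by
    intro ω
    rw [hrs']
    rfl
  -- hitting probability as an integral
  have hpint : ∀ (ρ : Measure E) (y : E), hp adj ρ s y = ∫⁻ ω, ind (Hs adj s (pt ω) y) ∂PL ρ := by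
    intro ρ y
    rw [lintegral_ind (mH' y)]
    rfl
  have hsuper : ∀ y : E, hp adj (ρ₁ + ρ₂) s y =
      ∫⁻ ω, ∫⁻ ω', ind (Hs adj s (pt ω ∪ pt ω') y) ∂PL ρ₂ ∂PL ρ₁ := by
    intro y
    rw [hpint]
    exact hsup E ρ₁ ρ₂ (fun P => ind (Hs adj s P y)) (measurable_ind (mH' y))
  -- insertion of the starting point
  have hins : ∀ (Q : Set E) (z : E), Hs adj s (insert z Q) z → Hs adj s Q z := by
    intro Q z h
    rcases (hclb E adj Q Q z z).2.2.2.2.2 s h with h1 | h1
    · exact h1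
    · exact h1.2
  -- step 3
  set G : Cfg E → E → ℝ≥0∞ := fun ω z => ∫⁻ ω', ind (Con adj (pt ω) x z) *
    ind (Hs adj s (rest adj (pt ω) x ∪ pt ω') z) ∂PL ρ₂ with hG
  have mJ : Measurable fun q : (Cfg E × E) × Cfg E => ind (Con adj (pt q.1.1) x q.1.2) *
      ind (Hs adj s (rest adj (pt q.1.1) x ∪ pt q.2) q.1.2) := by
    apply Measurable.mul
    · have h : Measurable fun q : (Cfg E × E) × Cfg E => (q.1.2, q.1.1) :=
        (measurable_snd.comp measurable_fst).prodMk (measurable_fst.comp measurable_fst)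
      exact (measurable_ind (mC x)).comp h
    · have h : Measurable fun q : (Cfg E × E) × Cfg E =>
          (q.1.2, un (rs (q.1.1, q.1.1), q.2)) := by
        have h1 : Measurable fun q : (Cfg E × E) × Cfg E => q.1.1 :=
          measurable_fst.comp measurable_fst
        exact (measurable_snd.comp measurable_fst).prodMk
          (hun.comp ((hrs.comp (h1.prodMk h1)).prodMk measurable_snd))
      have h2 := (measurable_ind mH).comp h
      have h3 : ((fun q : E × Cfg E => ind (Hs adj s (pt q.2) q.1)) ∘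
          fun q : (Cfg E × E) × Cfg E => (q.1.2, un (rs (q.1.1, q.1.1), q.2))) =
          fun q : (Cfg E × E) × Cfg E =>
            ind (Hs adj s (rest adj (pt q.1.1) x ∪ pt q.2) q.1.2) := by
        funext q
        show ind (Hs adj s (pt (un (rs (q.1.1, q.1.1), q.2))) q.1.2) = _
        rw [hun', ← hrest]
      rw [← h3]
      exact h2
  have mG : Measurable fun q : Cfg E × E => G q.1 q.2 := mJ.lintegral_prod_right'
  have step3 : ∀ ω : Cfg E, ∫⁻ ω', ind (Hs adj s (pt ω ∪ pt ω') x) ∂PL ρ₂ ≤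
      ind (Hs adj s (pt ω) x) + ∫⁻ z, G ω z ∂ρ₂ := by
    intro ω
    set g : E → Set E → ℝ≥0∞ := fun z P => ind (Con adj (pt ω) x z) *
      ind (Hs adj s (rest adj (pt ω) x ∪ P) z) with hg
    have mg : Measurable (fun q : E × Cfg E => g q.1 (pt q.2)) := by
      have h : Measurable fun q : E × Cfg E => ((ω, q.1), q.2) :=
        (measurable_const.prodMk measurable_fst).prodMk measurable_snd
      exact mJ.comp h
    have hM := (hmk E ρ₂ g mg).1
    calc ∫⁻ ω', ind (Hs adj s (pt ω ∪ pt ω') x) ∂PL ρ₂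
        ≤ ∫⁻ ω', (ind (Hs adj s (pt ω) x) + ∑' z : (pt ω' : Set E), g z (pt ω')) ∂PL ρ₂ :=
          lintegral_mono (fun ω' => ind_le_tsum adj s (pt ω) (pt ω') x)
      _ = ind (Hs adj s (pt ω) x) + ∫⁻ ω', ∑' z : (pt ω' : Set E), g z (pt ω') ∂PL ρ₂ := by
          rw [lintegral_add_left measurable_const, lintegral_const, measure_univ, mul_one]
      _ ≤ ind (Hs adj s (pt ω) x) + ∫⁻ z, G ω z ∂ρ₂ := by
          rw [hM]
          refine add_le_add le_rfl (lintegral_mono (fun z => lintegral_mono (fun ω' => ?_)))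
          refine mul_le_mul' le_rfl (ind_mono (fun h => ?_))
          rw [Set.union_insert] at h
          exact hins _ _ h
  -- step 5
  have step5 : ∀ z : E, ∫⁻ ω, G ω z ∂PL ρ₁ ≤ tp adj ρ₁ x z * hp adj (ρ₁ + ρ₂) s z := by
    intro z
    set Fz : Set E → Set E → ℝ≥0∞ := fun C O => ind (Con adj C x z) *
      ∫⁻ ω', ind (Hs adj s (O ∪ pt ω') z) ∂PL ρ₂ with hFz
    have mK : Measurable fun ω : Cfg E => ∫⁻ ω', ind (Hs adj s (pt ω ∪ pt ω') z) ∂PL ρ₂ := by
      have h1 : Measurable fun q : Cfg E × Cfg E => ind (Hs adj s (pt q.1 ∪ pt q.2) z) := by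
        have h2 := (measurable_ind (mH' z)).comp hun
        have h3 : ((fun ω : Cfg E => ind (Hs adj s (pt ω) z)) ∘ un) =
            fun q : Cfg E × Cfg E => ind (Hs adj s (pt q.1 ∪ pt q.2) z) := by
          funext q
          show ind (Hs adj s (pt (un q)) z) = _
          rw [show un q = un (q.1, q.2) from rfl, hun']
        rw [← h3]
        exact h2
      exact h1.lintegral_prod_right'
    have mFz : Measurable (fun q : Cfg E × Cfg E => Fz (pt q.1) (pt q.2)) := by
      apply Measurable.mul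
      · exact (measurable_ind (mC' x z)).comp measurable_fst
      · exact mK.comp measurable_snd
    have hE := hexpl E ρ₁ adj x Fz hadj mFz
    have hclus : ∀ P : Set E, Con adj (clus adj P x) x z ↔ Con adj P x z := by
      intro P
      have h := ((hclb E adj P (clus adj P x) x x).2.2.2.2.1 (by
        ext e
        simp only [clus, Set.mem_setOf_eq]
        tauto)).1
      unfold Con
      rw [h]
    have e1 : ∀ ω : Cfg E, G ω z =
        Fz (clus adj (pt ω) x) {e | e ∈ pt ω ∧ ¬ Con adj (pt ω) x e} := by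
      intro ω
      show ∫⁻ ω', ind (Con adj (pt ω) x z) * ind (Hs adj s (rest adj (pt ω) x ∪ pt ω') z) ∂PL ρ₂ =
        ind (Con adj (clus adj (pt ω) x) x z) *
          ∫⁻ ω', ind (Hs adj s (rest adj (pt ω) x ∪ pt ω') z) ∂PL ρ₂
      rw [lintegral_const_mul' _ _ (ind_ne_top _), ind_congr (hclus (pt ω))]
    simp only [e1]
    rw [hE]
    calc ∫⁻ ω, ∫⁻ ω', Fz (clus adj (pt ω) x) {e | e ∈ pt ω' ∧ ¬ Con adj (pt ω) x e} ∂PL ρ₁ ∂PL ρ₁
        ≤ ∫⁻ ω, ∫⁻ ω'', ind (Con adj (pt ω) x z) *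
            (∫⁻ ω', ind (Hs adj s (pt ω'' ∪ pt ω') z) ∂PL ρ₂) ∂PL ρ₁ ∂PL ρ₁ := by
          refine lintegral_mono (fun ω => lintegral_mono (fun ω'' => ?_))
          show ind (Con adj (clus adj (pt ω) x) x z) * _ ≤ _
          rw [ind_congr (hclus (pt ω))]
          refine mul_le_mul' le_rfl (lintegral_mono (fun ω' => ind_mono (fun h => ?_)))
          exact hs_mono adj s (Set.union_subset_union_left _ (fun e he => he.1)) h
      _ = ∫⁻ ω, ind (Con adj (pt ω) x z) * hp adj (ρ₁ + ρ₂) s z ∂PL ρ₁ := by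
          refine lintegral_congr (fun ω => ?_)
          rw [lintegral_const_mul' _ _ (ind_ne_top _), ← hsuper z]
      _ = tp adj ρ₁ x z * hp adj (ρ₁ + ρ₂) s z := by
          rw [lintegral_mul_const _ (measurable_ind (mC' x z)), lintegral_ind (mC' x z)]
          rfl
  -- conclusion
  rw [hsuper x]
  calc ∫⁻ ω, ∫⁻ ω', ind (Hs adj s (pt ω ∪ pt ω') x) ∂PL ρ₂ ∂PL ρ₁
      ≤ ∫⁻ ω, (ind (Hs adj s (pt ω) x) + ∫⁻ z, G ω z ∂ρ₂) ∂PL ρ₁ := lintegral_mono step3
    _ = hp adj ρ₁ s x + ∫⁻ ω, ∫⁻ z, G ω z ∂ρ₂ ∂PL ρ₁ := by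
        rw [lintegral_add_left (measurable_ind (mH' x)), ← hpint]
    _ = hp adj ρ₁ s x + ∫⁻ z, ∫⁻ ω, G ω z ∂PL ρ₁ ∂ρ₂ := by
        rw [lintegral_lintegral_swap mG.aemeasurable]
    _ ≤ _ := add_le_add le_rfl (lintegral_mono step5)

end Pool.Agent.Lib.MP_5349a4_pr.H30
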