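import Pool.Agent.Lib.MP_5349a4_pr.M.Iface1
import Pool.Agent.Lib.MP_5349a4_pr.M.Base

/-!
# Module SMP (P6): strong Markov property for stopping sets
-/

set_option autoImplicit false
set_option linter.all false
open MeasureTheory Set
open scoped ENNReal NNReal

namespace Pool.Agent.Lib.MP_5349a4_pr.H30

open Pool.Agent.Lib.MP_5349a4_pr

section det

variable {E : Type}

/-- the only subset which can be explored -/
lemma stop_unique {W : Set E → Set E}
    (hW : ∀ P Q : Set E, P.Finite → Q.Finite → Q ∩ W P = P ∩ W P → W Q = W P) {P I : Set E}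
    (hP : P.Finite) (hI : I ⊆ P) (h1 : I ⊆ W I) (h2 : (P \ I) ∩ W I = ∅) : I = P ∩ W P := by
  have e1 : P ∩ W I = I ∩ W I := by
    ext e
    constructor
    · rintro ⟨he, hw⟩
      refine ⟨?_, hw⟩
      by_contra hne
      have : e ∈ (P \ I) ∩ W I := ⟨⟨he, hne⟩, hw⟩
      rw [h2] at this
      exact this
    · rintro ⟨he, hw⟩
      exact ⟨hI he, hw⟩
  have e2 := hW I P (hP.subset hI) hP e1
  rw [e2, e1]
  exact (Set.inter_eq_self_of_subset_left h1).symm

lemma stop_self {W : Set E → Set E}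
    (hW : ∀ P Q : Set E, P.Finite → Q.Finite → Q ∩ W P = P ∩ W P → W Q = W P) {P : Set E}
    (hP : P.Finite) : W (P ∩ W P) = W P := by
  apply hW P (P ∩ W P) hP (hP.subset Set.inter_subset_left)
  rw [Set.inter_assoc, Set.inter_self]

lemma sum_subsets {W : Set E → Set E}
    (hW : ∀ P Q : Set E, P.Finite → Q.Finite → Q ∩ W P = P ∩ W P → W Q = W P) {P : Set E}
    (hP : P.Finite) (f : Set E → Set E → ℝ≥0∞) :
    ∑' I : {I : Set E // I ⊆ P}, ind ((I : Set E) ⊆ W I) * (ind ((P \ (I : Set E)) ∩ W I = ∅) * f I (P \ I))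
      = f (P ∩ W P) (P \ W P) := by
  rw [tsum_eq_single (⟨P ∩ W P, Set.inter_subset_left⟩ : {I : Set E // I ⊆ P})]
  · have hs := stop_self hW hP
    have e1 : P \ (P ∩ W P) = P \ W P := by
      ext e; simp only [Set.mem_sdiff, Set.mem_inter_iff]; tauto
    show ind ((P ∩ W P) ⊆ W (P ∩ W P)) * (ind ((P \ (P ∩ W P)) ∩ W (P ∩ W P) = ∅) *
      f (P ∩ W P) (P \ (P ∩ W P))) = _
    rw [hs, e1, ind_of Set.inter_subset_right, ind_of, one_mul, one_mul]
    ext e
    simp only [Set.mem_inter_iff, Set.mem_sdiff, Set.mem_empty_iff_false, iff_false]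
    tauto
  · intro I hI
    by_cases h1 : (I : Set E) ⊆ W I
    · by_cases h2 : (P \ (I : Set E)) ∩ W I = ∅
      · exact absurd (Subtype.ext (stop_unique hW hP I.2 h1 h2)) hI
      · rw [ind_not h2, zero_mul, mul_zero]
    · rw [ind_not h1, zero_mul]

end det

variable {E : Type} [MeasurableSpace E]

lemma meas_void {A : Set E} (hA : MeasurableSet A) :
    MeasurableSet {ω : Cfg E | pt ω ∩ A = ∅} := by
  rw [measurableSet_cfg]
  intro k
  have : {x : Fin k → E | (⟨k, x⟩ : Cfg E) ∈ {ω : Cfg E | pt ω ∩ A = ∅}} =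
      ⋂ i, {x : Fin k → E | x i ∉ A} := by
    ext x
    simp only [Set.mem_setOf_eq, Set.mem_iInter, Set.eq_empty_iff_forall_notMem, Set.mem_inter_iff,
      not_and]
    constructor
    · intro h i
      exact h _ ⟨i, rfl⟩
    · rintro h e ⟨i, rfl⟩
      exact h i
  rw [this]
  refine MeasurableSet.iInter (fun i => ?_)
  have h : Measurable fun x : Fin k → E => x i := measurable_pi_apply i
  exact h hA.compl

lemma meas_empty : MeasurableSet {ω : Cfg E | pt ω = ∅} := by
  have := meas_void (E := E) (A := Set.univ) MeasurableSet.univ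
  simpa using this

/-- the two sides expressed through the subsets formula -/
lemma half [StandardBorelSpace E] (hsub : SubsStatement) (hres : ResStatement)
    (hcount : CountStatement) (hms : MSumStatement) (ρ : Measure E) [IsFiniteMeasure ρ]
    [NullSingletonClass ρ] (W : Set E → Set E) (hW : Stop W) (f : Set E → Set E → ℝ≥0∞)
    (hf : Measurable (fun q : Cfg E × Cfg E => f (pt q.1) (pt q.2))) :
    ∫⁻ ω, f (pt ω ∩ W (pt ω)) (pt ω \ W (pt ω)) ∂PL ρ
      = ENNReal.ofReal (Real.exp (ρ univ).toReal) * ∫⁻ ω, ind (pt ω ⊆ W (pt ω)) *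
          (ENNReal.ofReal (Real.exp (-(ρ (W (pt ω))).toReal)) *
            ∫⁻ ω', f (pt ω) (pt ω' \ W (pt ω)) ∂PL ρ) ∂PL ρ := by
  have hWm : ∀ ω : Cfg E, MeasurableSet (W (pt ω)) := fun ω =>
    (measurable_id.prodMk measurable_const) hW.meas
  have hm1 : MeasurableSet {ω : Cfg E | pt ω ⊆ W (pt ω)} := by
    have h := (hms.2.1 Unit E (fun _ p P => p ∉ W P) (by
      have : Measurable fun q : Unit × E × Cfg E => (q.2.1, q.2.2) := measurable_snd
      exact (this hW.meas).compl)).compl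
    have h2 : Measurable fun ω : Cfg E => ((), ω) := measurable_const.prodMk measurable_id
    have h3 := h2 h
    convert h3 using 1
    ext ω
    simp only [Set.mem_setOf_eq, Set.mem_preimage, Set.mem_compl_iff, not_exists, not_and, not_not]
    rfl
  have hm2 : MeasurableSet {q : Cfg E × Cfg E | pt q.2 ∩ W (pt q.1) = ∅} := by
    have h := (hms.2.1 (Cfg E) E (fun ω p _ => p ∈ W (pt ω)) (by
      have : Measurable fun q : Cfg E × E × Cfg E => (q.2.1, q.1) :=
        (measurable_fst.comp measurable_snd).prodMk measurable_fst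
      exact this hW.meas)).compl
    convert h using 1
    ext q
    simp only [Set.mem_setOf_eq, Set.mem_compl_iff, not_exists, not_and,
      Set.eq_empty_iff_forall_notMem, Set.mem_inter_iff]
  have key := hsub E ρ (fun I O => ind (I ⊆ W I) * (ind (O ∩ W I = ∅) * f I O)) (by
    apply Measurable.mul
    · exact (measurable_ind hm1).comp measurable_fst
    · exact (measurable_ind hm2).mul hf)
  have e1 : ∀ ω : Cfg E, ∑' I : {I : Set E // I ⊆ pt ω}, (ind ((I : Set E) ⊆ W I) *
      (ind ((pt ω \ (I : Set E)) ∩ W I = ∅) * f I (pt ω \ I))) =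
      f (pt ω ∩ W (pt ω)) (pt ω \ W (pt ω)) :=
    fun ω => sum_subsets hW.stop (pt_finite ω) f
  simp only [e1] at key
  rw [key]
  congr 1
  refine lintegral_congr (fun ω => ?_)
  rw [lintegral_const_mul' _ _ (ind_ne_top _)]
  congr 1
  -- the inner integral
  have hA := hWm ω
  set A := W (pt ω) with hAdef
  have h1 := (hres E ρ A hA).2 (fun U V => ind (U = ∅) * f (pt ω) V) (by
    apply Measurable.mul
    · exact (measurable_ind meas_empty).comp measurable_fst
    · exact hf.comp (measurable_const.prodMk measurable_snd))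
  have e2 : ∀ ω' : Cfg E, ind (pt ω' ∩ A = ∅) * f (pt ω) (pt ω') =
      ind (pt ω' ∩ A = ∅) * f (pt ω) (pt ω' \ A) := by
    intro ω'
    by_cases h : pt ω' ∩ A = ∅
    · have : pt ω' \ A = pt ω' := by
        rw [sdiff_eq_left]
        exact Set.disjoint_iff_inter_eq_empty.2 h
      rw [this]
    · rw [ind_not h, zero_mul, zero_mul]
  simp only [e2]
  rw [h1]
  have e3 : ∀ ω₁ : Cfg E, ∫⁻ ω', ind (pt ω₁ ∩ A = ∅) * f (pt ω) (pt ω' \ A) ∂PL ρ =
      ind (pt ω₁ ∩ A = ∅) * ∫⁻ ω', f (pt ω) (pt ω' \ A) ∂PL ρ :=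
    fun ω₁ => lintegral_const_mul' _ _ (ind_ne_top _)
  simp only [e3]
  rw [lintegral_mul_const _ (measurable_ind (meas_void hA)), lintegral_ind (meas_void hA),
    (hcount E ρ A hA).1]

theorem smp (hsub : SubsStatement) (hres : ResStatement) (hcount : CountStatement)
    (hmr : MRestrStatement) (hms : MSumStatement) (hprob : ProbStatement) : SmpStatement := by
  intro E _ _ ρ _ _ W f hW hf
  haveI : IsProbabilityMeasure (PL ρ) := (hprob E ρ).1
  rw [half hsub hres hcount hms ρ W hW f hf]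
  set f₂ : Set E → Set E → ℝ≥0∞ := fun I _ => ∫⁻ ω', f I (pt ω' \ W I) ∂PL ρ with hf₂
  have hf₂m : Measurable (fun q : Cfg E × Cfg E => f₂ (pt q.1) (pt q.2)) := by
    obtain ⟨r, hr, hr'⟩ := hmr (Cfg E) E {q | q.2 ∉ W (pt q.1)} (by
      have : Measurable fun q : Cfg E × E => (q.2, q.1) := measurable_swap
      exact (this hW.meas).compl)
    have h1 : Measurable fun q : Cfg E × Cfg E => f (pt q.1) (pt q.2 \ W (pt q.1)) := by
      have h2 : ∀ q : Cfg E × Cfg E, pt q.2 \ W (pt q.1) = pt (r (q.1, q.2)) := by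
        intro q
        rw [hr']
        rfl
      simp only [h2]
      exact hf.comp (measurable_fst.prodMk (hr.comp (measurable_fst.prodMk measurable_snd)))
    have h3 : Measurable fun ω : Cfg E => ∫⁻ ω', f (pt ω) (pt ω' \ W (pt ω)) ∂PL ρ :=
      h1.lintegral_prod_right'
    exact h3.comp measurable_fst
  have h2 := half hsub hres hcount hms ρ W hW f₂ hf₂m
  have e1 : ∀ ω : Cfg E, f₂ (pt ω ∩ W (pt ω)) (pt ω \ W (pt ω)) =
      ∫⁻ ω', f (pt ω ∩ W (pt ω)) (pt ω' \ W (pt ω)) ∂PL ρ := by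
    intro ω
    rw [hf₂]
    show ∫⁻ ω', f (pt ω ∩ W (pt ω)) (pt ω' \ W (pt ω ∩ W (pt ω))) ∂PL ρ = _
    rw [stop_self hW.stop (pt_finite ω)]
  simp only [e1] at h2
  rw [h2]
  congr 1
  refine lintegral_congr (fun ω => ?_)
  congr 2
  show _ = ∫⁻ ω', f₂ (pt ω) (pt ω' \ W (pt ω)) ∂PL ρ
  rw [hf₂]
  show _ = ∫⁻ _, (∫⁻ ω', f (pt ω) (pt ω' \ W (pt ω)) ∂PL ρ) ∂PL ρ
  rw [lintegral_const, measure_univ, mul_one]

end Pool.Agent.Lib.MP_5349a4_pr.H30
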