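import Pool.Agent.Lib.MP_5349a4_pr.M.Iface1
import Pool.Agent.Lib.MP_5349a4_pr.M.Base

/-!
# Module WSL: Simon-Lieb inequality for expected weights of clusters
-/

set_option autoImplicit false
set_option linter.all false
open MeasureTheory Set
open scoped ENNReal NNReal

namespace Pool.Agent.Lib.MP_5349a4_pr.H30

open Pool.Agent.Lib.MP_5349a4_pr

lemma wsl_abs {E : Type} [MeasurableSpace E] (ρ₁ ρ₂ : Measure E) [IsFiniteMeasure ρ₁]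
    [IsFiniteMeasure ρ₂] (u : E → ℝ≥0∞) (v : E → ℝ≥0∞) (t : E → E → ℝ≥0∞) (f : E → ℝ≥0∞) (c : ℝ≥0∞)
    (hu : Measurable u) (hv : Measurable v) (ht : Measurable fun q : E × E => t q.1 q.2)
    (hf : Measurable f) (key : ∀ y, v y ≤ u y + ∫⁻ z, u z * t z y ∂ρ₂) :
    c + ∫⁻ y, v y * f y ∂(ρ₁ + ρ₂) ≤ c + ∫⁻ y, u y * f y ∂ρ₁ +
      ∫⁻ z, u z * (f z + ∫⁻ y, t z y * f y ∂(ρ₁ + ρ₂)) ∂ρ₂ := by
  have mt : ∀ z, Measurable fun y => t z y := fun z => ht.comp (measurable_const.prodMk measurable_id)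
  have mt' : ∀ y, Measurable fun z => t z y := fun y => ht.comp (measurable_id.prodMk measurable_const)
  have mprod : Measurable fun q : E × E => u q.2 * t q.2 q.1 * f q.1 :=
    ((hu.comp measurable_snd).mul (ht.comp (measurable_snd.prodMk measurable_fst))).mul
      (hf.comp measurable_fst)
  have h1 : ∫⁻ y, v y * f y ∂(ρ₁ + ρ₂) ≤
      ∫⁻ y, (u y * f y + ∫⁻ z, u z * t z y * f y ∂ρ₂) ∂(ρ₁ + ρ₂) := by
    refine lintegral_mono (fun y => ?_)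
    have e2 : ∫⁻ z, u z * t z y * f y ∂ρ₂ = (∫⁻ z, u z * t z y ∂ρ₂) * f y :=
      lintegral_mul_const (f y) (hu.mul (mt' y))
    show v y * f y ≤ u y * f y + ∫⁻ z, u z * t z y * f y ∂ρ₂
    rw [e2, ← add_mul]
    exact mul_le_mul' (key y) le_rfl
  have h2 : ∫⁻ y, (u y * f y + ∫⁻ z, u z * t z y * f y ∂ρ₂) ∂(ρ₁ + ρ₂) =
      ∫⁻ y, u y * f y ∂(ρ₁ + ρ₂) + ∫⁻ y, ∫⁻ z, u z * t z y * f y ∂ρ₂ ∂(ρ₁ + ρ₂) :=
    lintegral_add_left (hu.mul hf) _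
  have h3 : ∫⁻ y, ∫⁻ z, u z * t z y * f y ∂ρ₂ ∂(ρ₁ + ρ₂) =
      ∫⁻ z, ∫⁻ y, u z * t z y * f y ∂(ρ₁ + ρ₂) ∂ρ₂ :=
    lintegral_lintegral_swap mprod.aemeasurable
  have h4 : ∫⁻ z, ∫⁻ y, u z * t z y * f y ∂(ρ₁ + ρ₂) ∂ρ₂ =
      ∫⁻ z, u z * ∫⁻ y, t z y * f y ∂(ρ₁ + ρ₂) ∂ρ₂ := by
    refine lintegral_congr (fun z => ?_)
    have e : ∫⁻ y, u z * (t z y * f y) ∂(ρ₁ + ρ₂) = u z * ∫⁻ y, t z y * f y ∂(ρ₁ + ρ₂) :=
      lintegral_const_mul (u z) ((mt z).mul hf)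
    rw [← e]
    refine lintegral_congr (fun y => ?_)
    rw [mul_assoc]
  have h5 : ∫⁻ z, u z * (f z + ∫⁻ y, t z y * f y ∂(ρ₁ + ρ₂)) ∂ρ₂ =
      ∫⁻ z, u z * f z ∂ρ₂ + ∫⁻ z, u z * ∫⁻ y, t z y * f y ∂(ρ₁ + ρ₂) ∂ρ₂ := by
    have e : ∫⁻ z, (u z * f z + u z * ∫⁻ y, t z y * f y ∂(ρ₁ + ρ₂)) ∂ρ₂ =
        ∫⁻ z, u z * f z ∂ρ₂ + ∫⁻ z, u z * ∫⁻ y, t z y * f y ∂(ρ₁ + ρ₂) ∂ρ₂ :=
      lintegral_add_left (hu.mul hf) _
    rw [← e]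
    refine lintegral_congr (fun z => ?_)
    rw [mul_add]
  have h6 : ∫⁻ y, u y * f y ∂(ρ₁ + ρ₂) = ∫⁻ y, u y * f y ∂ρ₁ + ∫⁻ y, u y * f y ∂ρ₂ :=
    lintegral_add_measure _ _ _
  rw [h2, h3, h4, h6] at h1
  rw [h5]
  calc c + ∫⁻ y, v y * f y ∂(ρ₁ + ρ₂) ≤ c + _ := add_le_add le_rfl h1
    _ = _ := by
      ac_rfl

lemma key_of (hslg : SlgStatement) (E : Type) [MeasurableSpace E] [StandardBorelSpace E]
    (ρ₁ ρ₂ : Measure E) [IsFiniteMeasure ρ₁] [IsFiniteMeasure ρ₂] [NullSingletonClass ρ₁]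
    [NullSingletonClass ρ₂] (adj : E → E → Prop) (hadj : MAdj adj) (x y : E) :
    tp adj (ρ₁ + ρ₂) x y ≤ tp adj ρ₁ x y +
      ∫⁻ z, tp adj ρ₁ x z * tp adj (ρ₁ + ρ₂) z y ∂ρ₂ := by
  have hy : MeasurableSet {a | adj a y} := by
    have h : Measurable fun a : E => (a, y) := measurable_id.prodMk measurable_const
    exact h hadj
  have := hslg E ρ₁ ρ₂ adj (fun a => adj a y) x hadj hy
  simp only [← tp_eq_hp] at this
  exact this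

/-- sections of a measurable kernel -/
lemma msec {E : Type} [MeasurableSpace E] (t : E → E → ℝ≥0∞)
    (ht : Measurable fun q : E × E => t q.1 q.2) (x : E) : Measurable (t x) := by
  have hx : Measurable fun y : E => (x, y) := measurable_const.prodMk measurable_id
  exact ht.comp hx

theorem wsl (hslg : SlgStatement) (hcon : ConMStatement) : WslStatement := by
  intro E _ _ ρ₁ ρ₂ _ _ _ _ adj f x hadj hf
  have m1 : Measurable (fun q : E × E => tp adj ρ₁ q.1 q.2) := (hcon E adj hadj).2.2.1 ρ₁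
  have m12 : Measurable (fun q : E × E => tp adj (ρ₁ + ρ₂) q.1 q.2) :=
    (hcon E adj hadj).2.2.1 (ρ₁ + ρ₂)
  have key : ∀ y : E, tp adj (ρ₁ + ρ₂) x y ≤ tp adj ρ₁ x y +
      ∫⁻ z, tp adj ρ₁ x z * tp adj (ρ₁ + ρ₂) z y ∂ρ₂ := by
    intro y
    exact key_of hslg E ρ₁ ρ₂ adj hadj x y
  have hu : Measurable (fun y => tp adj ρ₁ x y) := msec _ m1 x
  have hv : Measurable (fun y => tp adj (ρ₁ + ρ₂) x y) := msec _ m12 x
  unfold wgt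
  exact wsl_abs ρ₁ ρ₂ (fun y => tp adj ρ₁ x y) (fun y => tp adj (ρ₁ + ρ₂) x y)
    (tp adj (ρ₁ + ρ₂)) f (f x) hu hv m12 hf key

end Pool.Agent.Lib.MP_5349a4_pr.H30
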